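import Pool.Agent.Helper61.FN.Goals

/-!
# Packet FN-PLV: the valuation
-/

set_option autoImplicit false

namespace Pool.Agent.Helper96.FN

open Pool.Agent.Helper61.FN IsDedekindDomain WithZero Polynomial

section

variable {F K : Type} [Field F] [Field K] [Algebra F K]
  (v : Valuation K (WithZero (Multiplicative ℤ)))

/-- The constants in the valuation ring. -/
noncomputable def toO (hF : ∀ c : F, v (algebraMap F K c) ≤ 1) : F →+* v.valuationSubring :=
  (algebraMap F K).codRestrict v.valuationSubring hF

/-- The constants in the residue field. -/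
noncomputable def kap (hF : ∀ c : F, v (algebraMap F K c) ≤ 1) :
    F →+* IsLocalRing.ResidueField v.valuationSubring :=
  (IsLocalRing.residue v.valuationSubring).comp (toO v hF)

theorem res_zero (x : v.valuationSubring) :
    IsLocalRing.residue v.valuationSubring x = 0 ↔ v (x : K) < 1 := by
  rw [IsLocalRing.residue_eq_zero_iff, ValuationSubring.valuation_lt_one_iff]
  exact (v.isEquiv_valuation_valuationSubring.lt_one_iff_lt_one).symm

theorem coe_eval (hF : ∀ c : F, v (algebraMap F K c) ≤ 1) (y : v.valuationSubring) (h : F[X]) :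
    ((h.eval₂ (toO v hF) y : v.valuationSubring) : K) = aeval (y : K) h := by
  have h1 := Polynomial.hom_eval₂ h (toO v hF) v.valuationSubring.subtype y
  exact h1

theorem res_eval (hF : ∀ c : F, v (algebraMap F K c) ≤ 1) (y : v.valuationSubring) (h : F[X]) :
    IsLocalRing.residue v.valuationSubring (h.eval₂ (toO v hF) y) =
      h.eval₂ (kap v hF) (IsLocalRing.residue v.valuationSubring y) :=
  Polynomial.hom_eval₂ h (toO v hF) (IsLocalRing.residue v.valuationSubring) y

theorem poly_of_int [CharZero F] (hF : ∀ c : F, v (algebraMap F K c) ≤ 1) (y : v.valuationSubring)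
    (hy : (kap v hF).IsIntegralElem (IsLocalRing.residue v.valuationSubring y)) :
    ∃ h : F[X], v (aeval (y : K) h) < 1 ∧ v (aeval (y : K) (derivative h)) = 1 := by
  let _ : Algebra F (IsLocalRing.ResidueField v.valuationSubring) := (kap v hF).toAlgebra
  have hint : IsIntegral F (IsLocalRing.residue v.valuationSubring y) := hy
  have hirr := minpoly.irreducible hint
  have hsep : (minpoly F (IsLocalRing.residue v.valuationSubring y)).Separable := hirr.separable
  have h0 := minpoly.aeval F (IsLocalRing.residue v.valuationSubring y)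
  have h1 := hsep.aeval_derivative_ne_zero h0
  refine ⟨minpoly F (IsLocalRing.residue v.valuationSubring y), ?_, ?_⟩
  · rw [← coe_eval v hF, ← res_zero, res_eval]
    exact h0
  · have h2 : ¬ v (aeval (y : K) (derivative (minpoly F
        (IsLocalRing.residue v.valuationSubring y)))) < 1 := by
      rw [← coe_eval v hF, ← res_zero, res_eval]
      exact h1
    have h3 : v (aeval (y : K) (derivative (minpoly F
        (IsLocalRing.residue v.valuationSubring y)))) ≤ 1 := by
      rw [← coe_eval v hF]
      exact (Polynomial.eval₂ (toO v hF) y _).2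
    exact le_antisymm h3 (not_lt.1 h2)

/-- Elements which are integral over `F[t]` have an algebraic residue. -/
theorem int_of_int (hF : ∀ c : F, v (algebraMap F K c) ≤ 1) (t : K) (ht : v t < 1)
    (r : v.valuationSubring) (hr : IsIntegral (Algebra.adjoin F {t}) (r : K)) :
    (kap v hF).IsIntegralElem (IsLocalRing.residue v.valuationSubring r) := by
  have hA : ∀ a ∈ Algebra.adjoin F {t}, ∃ c : F, v (a - algebraMap F K c) < 1 := by
    intro a ha
    induction ha using Algebra.adjoin_induction with
    | mem x hx =>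
      rw [Set.mem_singleton_iff] at hx
      exact ⟨0, by rw [hx, map_zero, sub_zero]; exact ht⟩
    | algebraMap c => exact ⟨c, by rw [sub_self, map_zero]; exact zero_lt_one⟩
    | add x y _ _ hx hy =>
      obtain ⟨c, hc⟩ := hx
      obtain ⟨d, hd⟩ := hy
      refine ⟨c + d, ?_⟩
      rw [map_add, show x + y - (algebraMap F K c + algebraMap F K d) =
        (x - algebraMap F K c) + (y - algebraMap F K d) by ring]
      exact v.map_add_lt hc hd
    | mul x y _ _ hx hy =>
      obtain ⟨c, hc⟩ := hx
      obtain ⟨d, hd⟩ := hy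
      refine ⟨c * d, ?_⟩
      rw [map_mul, show x * y - (algebraMap F K c * algebraMap F K d) =
        (x - algebraMap F K c) * (y - algebraMap F K d) + (algebraMap F K d * (x - algebraMap F K c)
          + algebraMap F K c * (y - algebraMap F K d)) by ring]
      refine v.map_add_lt ?_ (v.map_add_lt ?_ ?_)
      · rw [map_mul]
        exact mul_lt_one_of_lt_of_le hc hd.le
      · rw [map_mul]
        exact mul_lt_one_of_nonneg_of_lt_one_right (hF d) bot_le hc
      · rw [map_mul]
        exact mul_lt_one_of_nonneg_of_lt_one_right (hF c) bot_le hd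
  have hle : ∀ a ∈ Algebra.adjoin F {t}, v a ≤ 1 := by
    intro a ha
    obtain ⟨c, hc⟩ := hA a ha
    have : a = (a - algebraMap F K c) + algebraMap F K c := by ring
    rw [this]
    exact v.map_add_le hc.le (hF c)
  -- the inclusion of `F[t]` in the valuation ring
  let i : Algebra.adjoin F {t} →+* v.valuationSubring :=
    (algebraMap (Algebra.adjoin F {t}) K).codRestrict v.valuationSubring (fun a => hle a a.2)
  obtain ⟨p, hp, hpr⟩ := hr
  have h1 : p.eval₂ i r = 0 := by
    have h2 := Polynomial.hom_eval₂ p i v.valuationSubring.subtype r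
    apply Subtype.ext
    exact h2.trans hpr
  have h3 := Polynomial.hom_eval₂ p i (IsLocalRing.residue v.valuationSubring) r
  rw [h1, map_zero] at h3
  set f : Algebra.adjoin F {t} →+* IsLocalRing.ResidueField v.valuationSubring :=
    (IsLocalRing.residue v.valuationSubring).comp i with hf
  have h4 : ∀ a, f a ∈ (kap v hF).range := by
    intro a
    obtain ⟨c, hc⟩ := hA a a.2
    refine ⟨c, ?_⟩
    have h5 : IsLocalRing.residue v.valuationSubring (i a - toO v hF c) = 0 := by
      rw [res_zero]
      exact hc
    rw [map_sub, sub_eq_zero] at h5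
    exact h5.symm
  have h6 : p.map f ∈ Polynomial.lifts (kap v hF) := by
    rw [Polynomial.lifts_iff_coeff_lifts]
    intro n
    rw [Polynomial.coeff_map]
    exact h4 _
  obtain ⟨q, hq1, _, hq3⟩ := Polynomial.lifts_and_natDegree_eq_and_monic h6 (hp.map f)
  refine ⟨q, hq3, ?_⟩
  rw [← Polynomial.eval_map, hq1, Polynomial.eval_map]
  exact h3.symm

end

theorem goalPLV : G_PLV := by
  intro F K _ _ _ _ t R ht hD
  have hded := hD.ded
  have hfrac := hD.frac
  have hnu : ¬ IsUnit (⟨t, hD.mem⟩ : R) := by
    rintro ⟨u, hu⟩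
    apply hD.nu
    have h1 : (u : R) * ((u⁻¹ : Rˣ) : R) = 1 := u.mul_inv
    rw [hu] at h1
    have h2 : t * (((u⁻¹ : Rˣ) : R) : K) = 1 := congrArg Subtype.val h1
    have h3 : t⁻¹ = (((u⁻¹ : Rˣ) : R) : K) := inv_eq_of_mul_eq_one_right h2
    rw [h3]
    exact ((u⁻¹ : Rˣ) : R).2
  obtain ⟨M, hM, htM⟩ := exists_max_ideal_of_mem_nonunits hnu
  have hMb : M ≠ ⊥ := by
    rintro rfl
    rw [Ideal.mem_bot] at htM
    exact ht (congrArg Subtype.val htM)
  let p : HeightOneSpectrum R := ⟨M, hM.isPrime, hMb⟩
  have hint : ∀ r ∈ R, p.valuation K r ≤ 1 := fun r hr => p.valuation_le_one (K := K) ⟨r, hr⟩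
  have hvt : p.valuation K t < 1 := (p.valuation_lt_one_iff_mem (K := K) ⟨t, hD.mem⟩).2 htM
  have hF : ∀ c : F, p.valuation K (algebraMap F K c) ≤ 1 := fun c => hint _ (R.algebraMap_mem c)
  have hloc : ∀ y, p.valuation K y ≤ 1 → ∃ r ∈ R, ∃ s ∈ R, p.valuation K s = 1 ∧ y * s = r := by
    intro y hy
    obtain ⟨n, d, hnd⟩ := p.exists_primeCompl_mul_eq_of_integer y hy
    refine ⟨n, n.2, (d : R), (d : R).2, ?_, hnd⟩
    exact (p.valuation_eq_one_iff_notMem (K := K) (r := (d : R))).2 d.2
  refine ⟨p.valuation K, hint, hvt, ?_, p.valuation_exists_uniformizer K, hloc, ?_⟩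
  · intro c hc
    have h1 := hF c
    have h2 := hF c⁻¹
    have h3 : p.valuation K (algebraMap F K c) * p.valuation K (algebraMap F K c⁻¹) = 1 := by
      rw [← map_mul, ← map_mul, mul_inv_cancel₀ hc, map_one, map_one]
    apply le_antisymm h1
    rw [← h3]
    exact mul_le_of_le_one_right' h2
  · intro y hy
    obtain ⟨r, hr, s, hs, hs1, hys⟩ := hloc y hy
    refine poly_of_int (p.valuation K) hF ⟨y, hy⟩ ?_
    have hri := int_of_int (p.valuation K) hF t hvt ⟨r, hint r hr⟩ (hD.int r hr)
    have hsi := int_of_int (p.valuation K) hF t hvt ⟨s, hint s hs⟩ (hD.int s hs)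
    let _ : Algebra F (IsLocalRing.ResidueField (p.valuation K).valuationSubring) :=
      (kap (p.valuation K) hF).toAlgebra
    have hri' : IsIntegral F (IsLocalRing.residue (p.valuation K).valuationSubring
      ⟨r, hint r hr⟩) := hri
    have hsi' : IsIntegral F (IsLocalRing.residue (p.valuation K).valuationSubring
      ⟨s, hint s hs⟩) := hsi
    have hs0 : IsLocalRing.residue (p.valuation K).valuationSubring ⟨s, hint s hs⟩ ≠ 0 := by
      rw [Ne, res_zero]
      exact not_lt.2 hs1.ge
    have he : IsLocalRing.residue (p.valuation K).valuationSubring ⟨y, hy⟩ =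
        IsLocalRing.residue (p.valuation K).valuationSubring ⟨r, hint r hr⟩ *
          (IsLocalRing.residue (p.valuation K).valuationSubring ⟨s, hint s hs⟩)⁻¹ := by
      rw [eq_mul_inv_iff_mul_eq₀ hs0, ← map_mul]
      congr 1
      exact Subtype.ext hys
    show IsIntegral F (IsLocalRing.residue (p.valuation K).valuationSubring ⟨y, hy⟩)
    rw [he]
    exact hri'.mul hsi'.inv

end Pool.Agent.Helper96.FN
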